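import Pool.Agent.N299.ND.Stm2
import Pool.Agent.N299.Base

/-!
# Bridge: the global Glimm halving property (project ND of helper299)

Author: helper291.
-/

set_option autoImplicit false

open scoped Topology Matrix.Norms.L2Operator

noncomputable section

namespace Pool.Agent.N291.ND.BRG

open Pool.Agent.N299 Pool.Agent.N299.ND Pool.Agent.N299.ND.Pub

/-- approximate units for positive elements -/
lemma exists_au {B : Type} [CStarAlgebra B] {I : Submodule ℂ B} (hI : Idl I) {b : B} (hb : b ∈ I)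
    (hp : Pos b) {r : ℝ} (hr : 0 < r) : ∃ e ∈ I, ‖e‖ ≤ 1 ∧ ‖b - e * b‖ ≤ r ∧ ‖b - b * e‖ ≤ r := by
  let _ : PartialOrder B := CStarAlgebra.spectralOrder B
  let _ : StarOrderedRing B := CStarAlgebra.spectralOrderedRing B
  have hsa : IsSelfAdjoint b := hp.sa
  rw [pos_iff] at hp
  have hpos : ∀ t ∈ spectrum ℝ b, 0 ≤ t := fun t ht => spectrum_nonneg_of_nonneg hp ht
  have hden : ∀ t : ℝ, |t| + r ≠ 0 := fun t => by positivity
  have hc1 : Continuous fun t : ℝ => (|t| + r)⁻¹ :=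
    (continuous_abs.add continuous_const).inv₀ hden
  have hc2 : Continuous fun t : ℝ => t * (|t| + r)⁻¹ := continuous_id.mul hc1
  have e1 : cfc (fun t : ℝ => t * (|t| + r)⁻¹) b = b * cfc (fun t : ℝ => (|t| + r)⁻¹) b := by
    rw [cfc_mul (R := ℝ) (fun t => t) (fun t => (|t| + r)⁻¹) b (by fun_prop) hc1.continuousOn,
      cfc_id' ℝ b]
  have hest : ∀ t ∈ spectrum ℝ b, ‖t - t * (|t| + r)⁻¹ * t‖ ≤ r := by
    intro t ht
    have h0 := hpos t ht
    rw [Real.norm_eq_abs, abs_of_nonneg h0]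
    have h1 : t - t * (t + r)⁻¹ * t = t * r / (t + r) := by
      field_simp
      ring
    rw [h1, abs_of_nonneg (by positivity), div_le_iff₀ (by positivity)]
    nlinarith
  refine ⟨cfc (fun t : ℝ => t * (|t| + r)⁻¹) b, ?_, ?_, ?_, ?_⟩
  · rw [e1]
    exact hI.mulR b hb _
  · refine norm_cfc_le zero_le_one fun t ht => ?_
    have h0 := hpos t ht
    rw [Real.norm_eq_abs, abs_of_nonneg h0, abs_of_nonneg (by positivity), ← div_eq_mul_inv,
      div_le_one (by positivity)]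
    linarith
  · have e2 : b - cfc (fun t : ℝ => t * (|t| + r)⁻¹) b * b =
        cfc (fun t : ℝ => t - t * (|t| + r)⁻¹ * t) b := by
      rw [cfc_sub (R := ℝ) (fun t => t) (fun t => t * (|t| + r)⁻¹ * t) b (by fun_prop)
        (hc2.mul continuous_id).continuousOn, cfc_mul (R := ℝ) (fun t => t * (|t| + r)⁻¹)
        (fun t => t) b hc2.continuousOn (by fun_prop), cfc_id' ℝ b]
    rw [e2]
    exact norm_cfc_le hr.le hest
  · have e2 : b - b * cfc (fun t : ℝ => t * (|t| + r)⁻¹) b =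
        cfc (fun t : ℝ => t - t * (|t| + r)⁻¹ * t) b := by
      have h3 : (fun t : ℝ => t - t * (|t| + r)⁻¹ * t) =
          fun t : ℝ => t - t * (t * (|t| + r)⁻¹) := by
        funext t
        ring
      rw [h3, cfc_sub (R := ℝ) (fun t => t) (fun t => t * (t * (|t| + r)⁻¹)) b (by fun_prop)
        (continuous_id.mul hc2).continuousOn, cfc_mul (R := ℝ) (fun t => t)
        (fun t => t * (|t| + r)⁻¹) b (by fun_prop) hc2.continuousOn, cfc_id' ℝ b]
    rw [e2]
    exact norm_cfc_le hr.le hest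

theorem t_BRG : S_BRG := by
  intro A B _ _ ι I hι hB a ha ε hε
  obtain ⟨d, hd⟩ := ha
  have hmem : ∀ z, ι z ∈ I := fun z => (hι.mem _).2 ⟨z, rfl⟩
  have hnorm : ∀ z, ‖ι z‖ = ‖z‖ := NonUnitalStarAlgHom.norm_map ι hι.inj
  have hpos : Pos (ι a) := ⟨ι d, by rw [hd, map_mul, map_star]⟩
  obtain ⟨x, hx1, hx2, hx3⟩ := hB (ι a) (hmem a) hpos ε hε
  have hxI : x ∈ I := by
    have h1 : closure {y : B | ∃ b, y = ι a * b * ι a} ⊆ (I : Set B) := by
      refine closure_minimal ?_ hι.idl.closed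
      rintro y ⟨b, rfl⟩
      exact hι.idl.mulL _ (hmem a) _
    exact h1 hx1
  obtain ⟨x0, hx0⟩ := (hι.mem x).1 hxI
  refine ⟨x0, ?_, ?_, ?_⟩
  · -- the hereditary subalgebra
    rw [Metric.mem_closure_iff]
    intro δ hδ
    obtain ⟨y, ⟨b', rfl⟩, hy⟩ := Metric.mem_closure_iff.1 hx1 (δ / 2) (by positivity)
    obtain ⟨K, hK⟩ : ∃ K : ℝ, K = (‖ι a‖ + 1) * (‖b'‖ + 1) := ⟨_, rfl⟩
    have hK0 : 0 < K := by
      rw [hK]
      positivity
    obtain ⟨e, heI, he1, he2, he3⟩ := exists_au hι.idl (hmem a) hpos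
      (r := δ / (4 * K)) (by positivity)
    obtain ⟨c, hc⟩ := (hι.mem (e * b' * e)).1 (hι.idl.mulL _ heI _)
    refine ⟨a * c * a, ⟨c, rfl⟩, ?_⟩
    rw [dist_eq_norm, ← hnorm, map_sub, map_mul, map_mul, hx0, hc]
    rw [dist_eq_norm] at hy
    have h1 : x - ι a * (e * b' * e) * ι a = (x - ι a * b' * ι a) +
        ((ι a - ι a * e) * b' * ι a + (ι a * e) * b' * (ι a - e * ι a)) := by
      noncomm_ring
    rw [h1]
    have h2 : ‖(ι a - ι a * e) * b' * ι a‖ ≤ δ / (4 * K) * ‖b'‖ * ‖ι a‖ := by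
      refine (norm_mul_le _ _).trans ?_
      refine mul_le_mul_of_nonneg_right ?_ (norm_nonneg _)
      refine (norm_mul_le _ _).trans ?_
      exact mul_le_mul_of_nonneg_right he3 (norm_nonneg _)
    have h3 : ‖(ι a * e) * b' * (ι a - e * ι a)‖ ≤ ‖ι a‖ * ‖b'‖ * (δ / (4 * K)) := by
      refine (norm_mul_le _ _).trans ?_
      refine mul_le_mul ?_ he2 (norm_nonneg _) (by positivity)
      refine (norm_mul_le _ _).trans ?_
      refine mul_le_mul_of_nonneg_right ?_ (norm_nonneg _)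
      refine (norm_mul_le _ _).trans ?_
      calc ‖ι a‖ * ‖e‖ ≤ ‖ι a‖ * 1 := mul_le_mul_of_nonneg_left he1 (norm_nonneg _)
        _ = ‖ι a‖ := mul_one _
    have h4 : ‖ι a‖ * ‖b'‖ ≤ K := by
      rw [hK]
      exact mul_le_mul (by linarith) (by linarith) (norm_nonneg _) (by positivity)
    have h5 : δ / (4 * K) * ‖b'‖ * ‖ι a‖ + ‖ι a‖ * ‖b'‖ * (δ / (4 * K)) ≤ δ / 2 := by
      have h6 : δ / (4 * K) * ‖b'‖ * ‖ι a‖ + ‖ι a‖ * ‖b'‖ * (δ / (4 * K)) =
          2 * (δ / (4 * K)) * (‖ι a‖ * ‖b'‖) := by ring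
      rw [h6]
      calc 2 * (δ / (4 * K)) * (‖ι a‖ * ‖b'‖) ≤ 2 * (δ / (4 * K)) * K :=
            mul_le_mul_of_nonneg_left h4 (by positivity)
        _ = δ / 2 := by
            field_simp
            ring
    have h7 := norm_add_le (x - ι a * b' * ι a)
      ((ι a - ι a * e) * b' * ι a + (ι a * e) * b' * (ι a - e * ι a))
    have h8 := norm_add_le ((ι a - ι a * e) * b' * ι a) ((ι a * e) * b' * (ι a - e * ι a))
    linarith
  · apply hι.inj
    rw [map_mul, hx0, hx2, map_zero]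
  · -- the ideal
    obtain ⟨w, hw⟩ : ∃ w, w = cfcₙ (fun t : ℝ => max (t - ε) 0) a := ⟨_, rfl⟩
    have hcont : Continuous fun t : ℝ => max (t - ε) 0 := by fun_prop
    have hf0 : (fun t : ℝ => max (t - ε) 0) 0 = 0 := by
      simp [hε.le]
    have hasa : IsSelfAdjoint a := by
      rw [hd]
      exact IsSelfAdjoint.star_mul_self d
    have hιw : ι w = cfc (fun t : ℝ => max (t - ε) 0) (ι a) := by
      rw [hw, NonUnitalStarAlgHomClass.map_cfcₙ (S := ℂ) ι (fun t : ℝ => max (t - ε) 0) a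
        hcont.continuousOn hf0 (NonUnitalStarAlgHom.isometry ι hι.inj).continuous hasa
        (hasa.map ι), cfcₙ_eq_cfc hcont.continuousOn hf0]
    have hwpos : Pos (ι w) := by
      let _ : PartialOrder B := CStarAlgebra.spectralOrder B
      let _ : StarOrderedRing B := CStarAlgebra.spectralOrderedRing B
      rw [pos_iff, hιw]
      exact cfc_nonneg fun t _ => le_max_right _ _
    rw [← hw]
    rw [← hιw] at hx3
    unfold idealGen
    rw [Metric.mem_closure_iff]
    intro δ hδ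
    obtain ⟨y, ⟨k, u, v, rfl⟩, hy⟩ := Metric.mem_closure_iff.1 hx3 (δ / 2) (by positivity)
    obtain ⟨e, heI, he1, he2, he3⟩ := exists_au hι.idl (hmem w) hwpos
      (r := δ / 5) (by positivity)
    choose c hc using fun i => (hι.mem (e * u i)).1 (hι.idl.mulR _ heI _)
    choose c' hc' using fun i => (hι.mem (v i * e)).1 (hι.idl.mulL _ heI _)
    refine ⟨∑ i, c i * x0 * c' i, ⟨k, c, c', rfl⟩, ?_⟩
    rw [dist_eq_norm, ← hnorm, map_sub, map_sum]
    rw [dist_eq_norm] at hy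
    have h0 : ∑ i, ι (c i * x0 * c' i) = e * (∑ i, u i * x * v i) * e := by
      rw [Finset.mul_sum, Finset.sum_mul]
      refine Finset.sum_congr rfl fun i _ => ?_
      rw [map_mul, map_mul, hc, hc', hx0]
      simp only [mul_assoc]
    rw [h0]
    have h1 : ι w - e * (∑ i, u i * x * v i) * e = (ι w - e * ι w) +
        e * (ι w - ι w * e) + e * (ι w - ∑ i, u i * x * v i) * e := by
      noncomm_ring
    rw [h1]
    have h2 : ‖e * (ι w - ι w * e)‖ ≤ δ / 5 := by
      refine (norm_mul_le _ _).trans ?_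
      calc ‖e‖ * ‖ι w - ι w * e‖ ≤ 1 * (δ / 5) :=
            mul_le_mul he1 he3 (norm_nonneg _) zero_le_one
        _ = δ / 5 := one_mul _
    have h3 : ‖e * (ι w - ∑ i, u i * x * v i) * e‖ ≤ ‖ι w - ∑ i, u i * x * v i‖ := by
      refine (norm_mul_le _ _).trans ?_
      calc ‖e * (ι w - ∑ i, u i * x * v i)‖ * ‖e‖ ≤
            (1 * ‖ι w - ∑ i, u i * x * v i‖) * 1 := by
            refine mul_le_mul ?_ he1 (norm_nonneg _) (by positivity)
            refine (norm_mul_le _ _).trans ?_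
            exact mul_le_mul_of_nonneg_right he1 (norm_nonneg _)
        _ = _ := by rw [one_mul, mul_one]
    have h4 := norm_add_le ((ι w - e * ι w) + e * (ι w - ι w * e))
      (e * (ι w - ∑ i, u i * x * v i) * e)
    have h5 := norm_add_le (ι w - e * ι w) (e * (ι w - ι w * e))
    linarith

end Pool.Agent.N291.ND.BRG
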